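import Mathlib
import Pool.Agent.V1139.TD.Fin

/-!
# There is no gap between uncountable topological transcendence and generating degrees

An analytic field is a field which is complete for a nonarchimedean absolute value (possibly
trivial). Let `K / k` be an extension of analytic fields, `Ka` an algebraic closure of `K` with the
absolute value extending that of `K`, and `Completion Ka` its completion. For a subset `S` of `K`
let `hull S` be the closure in `Completion Ka` of the set of the elements which are algebraic over
`k(S)`. A subset `S` of `K` is independent if `hull S'` is strictly smaller than `hull S` for all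
proper subsets `S'` of `S`, and generating if `hull S` is everything; `topdeg` is the supremum of the
cardinalities of the independent subsets of `K`, and `Topdeg` is the minimum of the cardinalities of
the generating subsets of `K`.

We show that `ℵ₁ ≤ topdeg < Topdeg` is impossible.

Idea of the proof. For `T ⊆ K` let `F_T` be the algebraic closure of `k(T)` and `d(x, T)` the distance of
`x` to `F_T`. Call `S` free over `T` if `0 < d(b, T) = d(b, T ∪ (S \ {b}))` for all `b` in `S`; then `S` is
independent. A symmetry lemma (proved with Gauss norms in two variables) says: if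
`d(x, T ∪ S) = d(x, T) > 0` and `S` is free over `T` then `S ∪ {x}` is free over `T`. So if `S` is maximal,
then `d(x, T ∪ S) < d(x, T)` for all `x` which are not in the closure of `F_{T ∪ S}`. Suppose that all
independent sets have at most `κ ≥ ℵ₁` elements. Starting from the empty set, adjoin `ω₁` times a
maximal free family. The result is a set `G` with at most `κ` elements. If `x ∈ K` is not in the
closure of `F_G` then the distances of `x` to the fields which occur in the construction are a
strictly decreasing sequence of real numbers of length `ω₁`, which is impossible. So `G` is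
generating.
-/

set_option autoImplicit false

namespace Pool.Agent.Results.MP_769310_ag.NoUncountableGap

open Cardinal UniformSpace

universe u v w

section

variable (k : Type u) (K : Type v) (Ka : Type w) [NormedField k] [NormedField K]
  [NormedField Ka] [NormedAlgebra k K] [NormedAlgebra K Ka] [NormedAlgebra k Ka]

/-- The image of `S ⊆ K` in the completion of `Ka`. -/
def image (S : Set K) : Set (Completion Ka) :=
  (fun x : K => ((algebraMap K Ka x : Ka) : Completion Ka)) '' S

/-- The closure in the completion of `Ka` of the set of the elements which are algebraic over the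
field `k(S)`. -/
def hull (S : Set K) : Set (Completion Ka) :=
  closure {y : Completion Ka | IsAlgebraic (IntermediateField.adjoin k (image K Ka S)) y}

/-- `S ⊆ K` is topologically-algebraically independent over `k`. -/
def IsIndependent (S : Set K) : Prop := ∀ S' : Set K, S' ⊂ S → hull k K Ka S' ⊂ hull k K Ka S

/-- `S ⊆ K` is topologically-algebraically generating over `k`. -/
def IsGenerating (S : Set K) : Prop := hull k K Ka S = Set.univ

/-- The topological transcendence degree of `K` over `k`: the supremum of the cardinalities of the
independent subsets of `K`. -/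
noncomputable def topdeg : Cardinal.{v} := sSup {c | ∃ S : Set K, IsIndependent k K Ka S ∧ #S = c}

/-- The topological generating degree of `K` over `k`: the minimum of the cardinalities of the
generating subsets of `K`. -/
noncomputable def Topdeg : Cardinal.{v} := sInf {c | ∃ S : Set K, IsGenerating k K Ka S ∧ #S = c}

end

open Pool.Agent.V1139.TD

variable {k : Type u} {K : Type v} {Ka : Type w} [NormedField k] [NormedField K]
  [NormedField Ka] [NormedAlgebra k K] [NormedAlgebra K Ka] [NormedAlgebra k Ka]
  [IsScalarTower k K Ka]

theorem hull_eq [IsAlgClosed Ka] (S : Set K) : hull k K Ka S =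
    closure ((fun z : Ka => (z : Completion Ka)) '' (A k (algebraMap K Ka '' S) : Set Ka)) := by
  have h : image K Ka S =
      (fun z : Ka => (z : Completion Ka)) '' (algebraMap K Ka '' S) := by
    rw [Set.image_image]
    rfl
  unfold hull
  rw [h, algebraic_completion]

theorem isIndependent_of_ind [IsAlgClosed Ka] {S : Set K} (h : Ind k (algebraMap K Ka) S) :
    IsIndependent k K Ka S := by
  intro S' hS'
  rw [hull_eq, hull_eq]
  refine ⟨closure_mono (Set.image_mono (A_mono (Set.image_mono hS'.1))), fun h1 => ?_⟩
  obtain ⟨b, hb, hb'⟩ := Set.exists_of_ssubset hS'
  have h2 : ((algebraMap K Ka b : Ka) : Completion Ka) ∈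
      closure ((fun z : Ka => (z : Completion Ka)) '' (A k (algebraMap K Ka '' S) : Set Ka)) :=
    subset_closure (Set.mem_image_of_mem _ (subset_A _ (Set.mem_image_of_mem _ hb)))
  have h3 := (mem_closure_image_iff (nonempty_A _) _).1 (h1 h2)
  have h4 : D k (algebraMap K Ka) (algebraMap K Ka b) (S \ {b}) ≤
      D k (algebraMap K Ka) (algebraMap K Ka b) S' := by
    apply D_anti
    intro z hz
    exact ⟨hS'.1 hz, fun h5 => hb' (by rw [Set.mem_singleton_iff] at h5; exact h5 ▸ hz)⟩
  exact absurd ((h b hb).trans_le h4) (by rw [D, h3]; exact lt_irrefl _)

/-- **There is no extension `K / k` of analytic fields with `ℵ₁ ≤ topdeg < Topdeg`.** -/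
theorem result (k : Type u) (K : Type v) (Ka : Type w) [NormedField k] [NormedField K]
    [NormedField Ka] [IsUltrametricDist k] [IsUltrametricDist K] [CompleteSpace k]
    [CompleteSpace K] [NormedAlgebra k K] [NormedAlgebra K Ka] [NormedAlgebra k Ka]
    [IsScalarTower k K Ka] [IsAlgClosure K Ka] :
    ¬ (ℵ₁ ≤ topdeg k K Ka ∧ topdeg k K Ka < Topdeg k K Ka) := by
  rintro ⟨h1, h2⟩
  have : IsAlgClosed Ka := IsAlgClosure.isAlgClosed K
  have : IsUltrametricDist Ka := by
    apply IsUltrametricDist.isUltrametricDist_of_forall_norm_natCast_le_one
    intro n
    have h := IsUltrametricDist.norm_natCast_le_one K n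
    rwa [← norm_algebraMap' Ka, map_natCast] at h
  have hbdd : BddAbove {c | ∃ S : Set K, IsIndependent k K Ka S ∧ #S = c} := by
    refine ⟨#K, ?_⟩
    rintro c ⟨S, -, rfl⟩
    exact mk_set_le S
  obtain ⟨G, hG, hG'⟩ := exists_generating (k := k) (algebraMap K Ka) h1 (fun S hS =>
    le_csSup hbdd ⟨S, isIndependent_of_ind hS, rfl⟩)
  have hgen : IsGenerating k K Ka G := by
    unfold IsGenerating
    rw [hull_eq]
    apply Set.eq_univ_of_forall
    intro y
    have hd : closure (Set.range (fun z : Ka => (z : Completion Ka))) = Set.univ :=
      UniformSpace.Completion.denseRange_coe.closure_range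
    have hsub : Set.range (fun z : Ka => (z : Completion Ka)) ⊆
        closure ((fun z : Ka => (z : Completion Ka)) ''
          (A k (algebraMap K Ka '' G) : Set Ka)) := by
      rintro _ ⟨z, rfl⟩
      rw [mem_closure_image_iff (nonempty_A _)]
      exact infDist_eq_zero_of_forall (K := K) hG' z
    have := closure_minimal hsub isClosed_closure
    rw [hd] at this
    exact this (Set.mem_univ y)
  exact absurd ((csInf_le' ⟨G, hgen, rfl⟩ : Topdeg k K Ka ≤ #G).trans hG) (not_le.2 h2)

end Pool.Agent.Results.MP_769310_ag.NoUncountableGap
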